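import Pool.Agent.helper71.CL.Spec

set_option autoImplicit false

open MeasureTheory Set Filter Topology
open scoped ENNReal
open Pool.Agent.helper81.CW

noncomputable section

namespace Pool.Agent.CL

theorem FAR_compact {n : ℕ} {C : Set (E n)} (hC : IsCompact C) (x : E n) :
    IsCompact ((fun c => ‖x - c‖) '' C) :=
  hC.image (by fun_prop)

theorem FAR_le {n : ℕ} {C : Set (E n)} (hC : IsCompact C) (x : E n) :
    ∀ c ∈ C, ‖x - c‖ ≤ far C x := fun c hc =>
  le_csSup (FAR_compact hC x).bddAbove ⟨c, hc, rfl⟩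

theorem FAR_att {n : ℕ} {C : Set (E n)} (hC : IsCompact C) (hne : C.Nonempty) (x : E n) :
    ∃ c ∈ C, ‖x - c‖ = far C x := by
  have h := (FAR_compact hC x).sSup_mem (hne.image _)
  obtain ⟨c, hc, h⟩ := h
  exact ⟨c, hc, h⟩

theorem FAR_lip {n : ℕ} {C : Set (E n)} (hC : IsCompact C) (hne : C.Nonempty) (x y : E n) :
    far C x - far C y ≤ ‖x - y‖ := by
  obtain ⟨c, hc, h⟩ := FAR_att hC hne x
  have h1 := FAR_le hC y c hc
  have h2 : ‖x - c‖ ≤ ‖x - y‖ + ‖y - c‖ := by
    have : x - c = (x - y) + (y - c) := by abel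
    rw [this]; exact norm_add_le _ _
  linarith

theorem FAR : FAR_stmt := by
  intro n C hC hne x y
  refine ⟨FAR_le hC x, FAR_att hC hne x, ?_, ?_⟩
  · rw [abs_le]
    have h1 := FAR_lip hC hne x y
    have h2 := FAR_lip hC hne y x
    rw [norm_sub_rev] at h2
    constructor <;> linarith
  · intro a b ha hb hab
    obtain ⟨c, hc, h⟩ := FAR_att hC hne (a • x + b • y)
    rw [← h]
    have h1 : a • x + b • y - c = a • (x - c) + b • (y - c) := by
      have : c = (a + b) • c := by rw [hab, one_smul]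
      conv_lhs => rw [this]
      module
    rw [h1]
    calc ‖a • (x - c) + b • (y - c)‖ ≤ ‖a • (x - c)‖ + ‖b • (y - c)‖ := norm_add_le _ _
      _ = a * ‖x - c‖ + b * ‖y - c‖ := by
        rw [norm_smul, norm_smul, Real.norm_of_nonneg ha, Real.norm_of_nonneg hb]
      _ ≤ a * far C x + b * far C y :=
        add_le_add (mul_le_mul_of_nonneg_left (FAR_le hC x c hc) ha)
          (mul_le_mul_of_nonneg_left (FAR_le hC y c hc) hb)

end Pool.Agent.CL
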